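import Pool.Agent.Helper20.QD.St6

/-!
# Project QD part B, module DDI: bounded dilatation
-/

open Filter Topology Matrix Set Metric
open scoped ComplexConjugate

namespace Pool.Agent.Helper33.QD

open Pool.Agent.Helper35.PM Pool.Agent.Helper20.QD

theorem lin_dec (L : ℂ →L[ℝ] ℂ) (a : ℂ) :
    L a = (L 1 - Complex.I * L Complex.I) / 2 * a + (L 1 + Complex.I * L Complex.I) / 2 * conj a := by
  have h1 : a = a.re • (1 : ℂ) + a.im • Complex.I := by
    rw [Complex.real_smul, Complex.real_smul, mul_one, Complex.re_add_im]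
  have h2 : L a = (a.re : ℂ) * L 1 + (a.im : ℂ) * L Complex.I := by
    conv_lhs => rw [h1]
    rw [map_add, map_smul, map_smul, Complex.real_smul, Complex.real_smul]
  have h3 : a = (a.re : ℂ) + (a.im : ℂ) * Complex.I := (Complex.re_add_im a).symm
  have h4 : conj a = (a.re : ℂ) - (a.im : ℂ) * Complex.I := by
    conv_lhs => rw [h3]
    rw [map_add, map_mul, Complex.conj_ofReal, Complex.conj_ofReal, Complex.conj_I]
    ring
  have h5 : (L 1 - Complex.I * L Complex.I) / 2 * a + (L 1 + Complex.I * L Complex.I) / 2 * conj a =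
      L 1 * ((a + conj a) / 2) - Complex.I * L Complex.I * ((a - conj a) / 2) := by ring
  have h6 : (a + conj a) / 2 = (a.re : ℂ) := by
    rw [h4]
    linear_combination (1 / 2) * h3
  have h7 : (a - conj a) / 2 = (a.im : ℂ) * Complex.I := by
    rw [h4]
    linear_combination (1 / 2) * h3
  rw [h5, h6, h7, h2]
  linear_combination (L Complex.I * (a.im : ℂ)) * Complex.I_mul_I

theorem lin_cmp {L L' : ℂ →L[ℝ] ℂ} {c d : ℂ} (h : ∀ a : ℂ, L' (a * c) = L a * d) :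
    (L' 1 - Complex.I * L' Complex.I) / 2 * c = (L 1 - Complex.I * L Complex.I) / 2 * d ∧
    (L' 1 + Complex.I * L' Complex.I) / 2 * conj c = (L 1 + Complex.I * L Complex.I) / 2 * d := by
  have h1 := h 1
  have h2 := h Complex.I
  rw [lin_dec L', one_mul] at h1
  rw [lin_dec L', map_mul, Complex.conj_I] at h2
  constructor
  · linear_combination (1 / 2) * h1 - (1 / 2) * Complex.I * h2 + (1 / 2) * ((L' 1 - Complex.I * L' Complex.I) / 2 * c
      - (L' 1 + Complex.I * L' Complex.I) / 2 * conj c) * Complex.I_mul_I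
  · linear_combination (1 / 2) * h1 + (1 / 2) * Complex.I * h2 - (1 / 2) * ((L' 1 - Complex.I * L' Complex.I) / 2 * c
      - (L' 1 + Complex.I * L' Complex.I) / 2 * conj c) * Complex.I_mul_I

theorem hDDI (hSUB : StSUB) : StDDI := by
  intro Γ _ σ τ E hσ hτ hED hE hJ heq
  obtain ⟨s1, -, -, -, s5, -⟩ := hSUB
  obtain ⟨r, hr, hco⟩ := hσ.cocompact
  have h0D : (0 : ℂ) ∈ D := by simp
  have hr0 : 0 ≤ r := by
    obtain ⟨γ, hγ⟩ := hco 0 h0D
    exact (norm_nonneg _).trans hγ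
  have hopen : IsOpen D := isOpen_ball
  have hdiff : ∀ z ∈ D, HasFDerivAt E (fderiv ℝ E z) z := by
    intro z hz
    exact ((hE.differentiableOn one_ne_zero).differentiableAt (hopen.mem_nhds hz)).hasFDerivAt
  have hcont : ContinuousOn (fderiv ℝ E) D := hE.continuousOn_fderiv_of_isOpen hopen le_rfl
  have hc1 : ContinuousOn (fun z => fderiv ℝ E z 1) D := hcont.clm_apply continuousOn_const
  have hcI : ContinuousOn (fun z => fderiv ℝ E z Complex.I) D := hcont.clm_apply continuousOn_const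
  have hcz : ContinuousOn (dz E) D := by
    unfold dz
    exact (hc1.sub (continuousOn_const.mul hcI)).div_const 2
  have hczb : ContinuousOn (dzb E) D := by
    unfold dzb
    exact (hc1.add (continuousOn_const.mul hcI)).div_const 2
  have hpos : ∀ z ∈ D, 0 < ‖dz E z‖ := fun z hz => (norm_nonneg _).trans_lt (hJ z hz)
  have hm : ContinuousOn (fun z => ‖dzb E z‖ / ‖dz E z‖) D :=
    hczb.norm.div hcz.norm fun z hz => (hpos z hz).ne'
  have hsub : closedBall (0 : ℂ) r ⊆ D := closedBall_subset_ball hr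
  obtain ⟨z0, hz0, hmax⟩ := (isCompact_closedBall (0 : ℂ) r).exists_isMaxOn ⟨0, by simpa using hr0⟩ (hm.mono hsub)
  have hz0D := hsub hz0
  refine ⟨‖dzb E z0‖ / ‖dz E z0‖, by positivity, (div_lt_one (hpos z0 hz0D)).2 (hJ z0 hz0D), ?_⟩
  intro z hz
  obtain ⟨γ, hγ⟩ := hco z hz
  have hg := s1 (σ γ) (hσ.su γ)
  have hh := s1 (τ γ) (hτ γ)
  have hzc : ∀ z ∈ D, z ∈ DD := fun z hz => ball_subset_closedBall hz
  have hgz : mob (σ γ) z ∈ D := hg.2.2.1.mapsTo hz
  have hgd := s5 (σ γ) z (hg.2.1 z (hzc z hz))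
  have hhd := s5 (τ γ) (E z) (hh.2.1 _ (hzc _ (hED hz)))
  have hc : ((den (σ γ) z ^ 2)⁻¹ : ℂ) ≠ 0 := inv_ne_zero (pow_ne_zero 2 (hg.2.1 z (hzc z hz)))
  have hd : ((den (τ γ) (E z) ^ 2)⁻¹ : ℂ) ≠ 0 := inv_ne_zero (pow_ne_zero 2 (hh.2.1 _ (hzc _ (hED hz))))
  set c := ((den (σ γ) z ^ 2)⁻¹ : ℂ)
  set d := ((den (τ γ) (E z) ^ 2)⁻¹ : ℂ)
  have k1 : HasFDerivAt (fun z => E (mob (σ γ) z)) _ z :=
    (hdiff _ hgz).comp z (hgd.hasFDerivAt.restrictScalars ℝ)
  have k2 : HasFDerivAt (fun z => mob (τ γ) (E z)) _ z :=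
    (hhd.hasFDerivAt.restrictScalars ℝ).comp z (hdiff z hz)
  have hev : (fun z => mob (τ γ) (E z)) =ᶠ[𝓝 z] fun z => E (mob (σ γ) z) := by
    filter_upwards [hopen.mem_nhds hz] with y hy
    exact (heq γ y hy).symm
  have k3 := (k1.congr_of_eventuallyEq hev).unique k2
  have k4 : ∀ a : ℂ, fderiv ℝ E (mob (σ γ) z) (a * c) = fderiv ℝ E z a * d := by
    intro a
    have := congrArg (fun L : ℂ →L[ℝ] ℂ => L a) k3
    simpa using this
  obtain ⟨k5, k6⟩ := lin_cmp k4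
  have k7 : ‖dz E (mob (σ γ) z)‖ * ‖c‖ = ‖dz E z‖ * ‖d‖ := by
    rw [← norm_mul, ← norm_mul]
    exact congrArg norm k5
  have k8 : ‖dzb E (mob (σ γ) z)‖ * ‖c‖ = ‖dzb E z‖ * ‖d‖ := by
    rw [← RCLike.norm_conj c, ← norm_mul, ← norm_mul]
    exact congrArg norm k6
  have k9 : ‖dzb E (mob (σ γ) z)‖ / ‖dz E (mob (σ γ) z)‖ ≤ ‖dzb E z0‖ / ‖dz E z0‖ :=
    hmax (mem_closedBall_zero_iff.2 hγ)
  set k := ‖dzb E z0‖ / ‖dz E z0‖
  rw [div_le_iff₀ (hpos _ hgz)] at k9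
  have hcn : 0 < ‖c‖ := norm_pos_iff.2 hc
  have hdn : 0 < ‖d‖ := norm_pos_iff.2 hd
  have k10 : ‖dzb E z‖ * ‖d‖ ≤ (k * ‖dz E z‖) * ‖d‖ := by
    rw [← k8, mul_assoc, ← k7, ← mul_assoc]
    exact mul_le_mul_of_nonneg_right k9 hcn.le
  exact le_of_mul_le_mul_right k10 hdn

end Pool.Agent.Helper33.QD
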