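import Pool.Agent.Helper20.QD.St2

/-!
# Project QD part B, module SUB: elementary facts about `SU(1,1)`
-/

open Filter Topology Matrix Set Metric
open scoped ComplexConjugate

namespace Pool.Agent.Helper33.QD

open Pool.Agent.Helper35.PM Pool.Agent.Helper20.QD

theorem aux1 (p q N D : ℂ) (h : D ≠ 0) : p * (N / D) + q = (p * N + q * D) / D := by
  field_simp

theorem aux2 (p q N D : ℂ) (h : D ≠ 0) : (p * (N / D) + q) * D = p * N + q * D := by
  field_simp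

theorem mobmul (A B : SL) (z : ℂ) (h : den B z ≠ 0) :
    mob (A * B) z = mob A (mob B z) ∧ den (A * B) z = den A (mob B z) * den B z := by
  have e : ∀ i j, ((A * B : SL) : Mat) i j = (A : Mat) i 0 * (B : Mat) 0 j + (A : Mat) i 1 * (B : Mat) 1 j := by
    intro i j
    rw [Matrix.SpecialLinearGroup.coe_mul, Matrix.mul_apply, Fin.sum_univ_two]
  constructor
  · unfold den at h
    unfold mob
    rw [e, e, e, e, aux1 _ _ _ _ h, aux1 _ _ _ _ h, div_div_div_cancel_right₀ h]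
    congr 1 <;> ring
  · unfold den at h ⊢
    unfold mob
    rw [e, e, aux2 _ _ _ _ h]
    ring

theorem mob_one (z : ℂ) : mob 1 z = z := by
  unfold mob
  simp

theorem inv_mob (A : SL) (z : ℂ) (h : den A z ≠ 0) : mob A⁻¹ (mob A z) = z := by
  rw [← (mobmul A⁻¹ A z h).1, inv_mul_cancel, mob_one]

theorem su_inv {A : SL} (h : IsSU A) : IsSU A⁻¹ := by
  have e := Matrix.SpecialLinearGroup.SL2_inv_expl A
  obtain ⟨h1, h2⟩ := h
  constructor
  · rw [e]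
    change (A : Mat) 0 0 = conj ((A : Mat) 1 1)
    rw [h1, Complex.conj_conj]
  · rw [e]
    change - (A : Mat) 1 0 = conj (-(A : Mat) 0 1)
    rw [h2, map_neg]

theorem su_mul {A B : SL} (hA : IsSU A) (hB : IsSU B) : IsSU (A * B) := by
  have e : ∀ i j, ((A * B : SL) : Mat) i j = (A : Mat) i 0 * (B : Mat) 0 j + (A : Mat) i 1 * (B : Mat) 1 j := by
    intro i j
    rw [Matrix.SpecialLinearGroup.coe_mul, Matrix.mul_apply, Fin.sum_univ_two]
  obtain ⟨h1, h2⟩ := hA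
  obtain ⟨h3, h4⟩ := hB
  constructor
  · rw [e, e, h1, h2, h3, h4]
    simp only [map_add, map_mul, Complex.conj_conj]
    ring
  · rw [e, e, h1, h2, h3, h4]
    simp only [map_add, map_mul, Complex.conj_conj]
    ring

theorem su_det {A : SL} (h : IsSU A) : Complex.normSq ((A : Mat) 0 0) - Complex.normSq ((A : Mat) 0 1) = 1 := by
  have h1 := A.det_coe
  rw [Matrix.det_fin_two, h.1, h.2, Complex.mul_conj, Complex.mul_conj] at h1
  exact_mod_cast h1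

theorem su_den {A : SL} (h : IsSU A) (z : ℂ) :
    Complex.normSq (den A z) - Complex.normSq ((A : Mat) 0 0 * z + (A : Mat) 0 1) = 1 - Complex.normSq z := by
  have h1 := su_det h
  unfold den
  rw [h.1, h.2]
  simp only [Complex.normSq_apply, Complex.add_re, Complex.add_im, Complex.mul_re, Complex.mul_im,
    Complex.conj_re, Complex.conj_im] at h1 ⊢
  linear_combination (1 - (z.re * z.re + z.im * z.im)) * h1

theorem su_ne {A : SL} (h : IsSU A) {z : ℂ} (hz : ‖z‖ ≤ 1) : den A z ≠ 0 := by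
  intro h0
  have h1 := su_det h
  unfold den at h0
  rw [h.1, h.2] at h0
  have h2 : conj ((A : Mat) 0 0) = - (conj ((A : Mat) 0 1) * z) := by linear_combination h0
  have h3 := congrArg Complex.normSq h2
  rw [Complex.normSq_conj, Complex.normSq_neg, Complex.normSq_mul, Complex.normSq_conj] at h3
  have h4 : Complex.normSq z ≤ 1 := by
    rw [Complex.normSq_eq_norm_sq]
    nlinarith [norm_nonneg z]
  have h5 := Complex.normSq_nonneg ((A : Mat) 0 1)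
  nlinarith

theorem su_norm {A : SL} (h : IsSU A) {z : ℂ} (hz : ‖z‖ ≤ 1) :
    (1 - ‖mob A z‖ ^ 2) * ‖den A z‖ ^ 2 = 1 - ‖z‖ ^ 2 := by
  have h1 := su_den h z
  have h2 := su_ne h hz
  have h3 : mob A z * den A z = (A : Mat) 0 0 * z + (A : Mat) 0 1 := by
    unfold mob
    unfold den at h2 ⊢
    exact div_mul_cancel₀ _ h2
  rw [← h3, Complex.normSq_mul] at h1
  simp only [Complex.normSq_eq_norm_sq] at h1
  linarith

theorem su_D {A : SL} (h : IsSU A) : MapsTo (mob A) D D := by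
  intro z hz
  rw [mem_ball_zero_iff] at hz ⊢
  have h1 := su_norm h hz.le
  have h2 : 0 < ‖den A z‖ ^ 2 := by
    have := norm_pos_iff.2 (su_ne h hz.le)
    positivity
  by_contra hc
  push Not at hc
  have h3 : 1 - ‖mob A z‖ ^ 2 ≤ 0 := by nlinarith
  have h4 : (1 - ‖mob A z‖ ^ 2) * ‖den A z‖ ^ 2 ≤ 0 := mul_nonpos_of_nonpos_of_nonneg h3 h2.le
  have h5 : 0 < 1 - ‖z‖ ^ 2 := by nlinarith [norm_nonneg z]
  linarith

theorem su_S {A : SL} (h : IsSU A) : MapsTo (mob A) SS SS := by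
  intro z hz
  rw [mem_sphere_zero_iff_norm] at hz ⊢
  have h1 := su_norm h hz.le
  have h2 : 0 < ‖den A z‖ ^ 2 := by
    have := norm_pos_iff.2 (su_ne h hz.le)
    positivity
  rw [hz] at h1
  have h3 : 1 - ‖mob A z‖ ^ 2 = 0 := by
    have h4 : (1 - ‖mob A z‖ ^ 2) * ‖den A z‖ ^ 2 = 0 := by rw [h1]; norm_num
    exact (mul_eq_zero.1 h4).resolve_right h2.ne'
  have h4 : (‖mob A z‖ - 1) * (‖mob A z‖ + 1) = 0 := by linear_combination -h3
  have h5 : ‖mob A z‖ + 1 ≠ 0 := by positivity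
  have h6 := (mul_eq_zero.1 h4).resolve_right h5
  linarith

theorem su_bij {A : SL} (h : IsSU A) {s : Set ℂ} (hs : s ⊆ DD) (h1 : MapsTo (mob A) s s)
    (h2 : MapsTo (mob A⁻¹) s s) : BijOn (mob A) s s := by
  refine InvOn.bijOn (f' := mob A⁻¹) ⟨?_, ?_⟩ h1 h2
  · intro z hz
    exact inv_mob A z (su_ne h (mem_closedBall_zero_iff.1 (hs hz)))
  · intro z hz
    have h3 := inv_mob A⁻¹ z (su_ne (su_inv h) (mem_closedBall_zero_iff.1 (hs hz)))
    rwa [inv_inv] at h3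

theorem su_tr {a : ℂ} (ha : a ∈ D) : ∃ A : SL, IsSU A ∧ mob A 0 = a := by
  rw [mem_ball_zero_iff] at ha
  have h1 : 0 < 1 - ‖a‖ ^ 2 := by nlinarith [norm_nonneg a]
  obtain ⟨t, ht⟩ : ∃ t : ℝ, t = (Real.sqrt (1 - ‖a‖ ^ 2))⁻¹ := ⟨_, rfl⟩
  have ht0 : 0 < t := by rw [ht]; exact inv_pos.2 (Real.sqrt_pos.2 h1)
  have ht2 : t ^ 2 * (1 - ‖a‖ ^ 2) = 1 := by
    rw [ht, inv_pow, Real.sq_sqrt h1.le, inv_mul_cancel₀ h1.ne']
  have hn : (a * conj a : ℂ) = ((‖a‖ ^ 2 : ℝ) : ℂ) := by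
    rw [Complex.mul_conj, Complex.normSq_eq_norm_sq]
  have hdet : (!![(t : ℂ), t * a; t * conj a, t] : Mat).det = 1 := by
    rw [Matrix.det_fin_two_of]
    have h2 : ((t ^ 2 * (1 - ‖a‖ ^ 2) : ℝ) : ℂ) = 1 := by rw [ht2]; simp
    push_cast at h2 hn
    linear_combination h2 - (t : ℂ) ^ 2 * hn
  refine ⟨⟨!![(t : ℂ), t * a; t * conj a, t], hdet⟩, ⟨?_, ?_⟩, ?_⟩
  · change (t : ℂ) = conj (t : ℂ)
    rw [Complex.conj_ofReal]
  · change (t : ℂ) * conj a = conj ((t : ℂ) * a)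
    rw [map_mul, Complex.conj_ofReal]
  · change ((t : ℂ) * 0 + (t : ℂ) * a) / (((t : ℂ) * conj a) * 0 + (t : ℂ)) = a
    have ht1 : (t : ℂ) ≠ 0 := by exact_mod_cast ht0.ne'
    field_simp
    ring

theorem mob_deriv (A : SL) (z : ℂ) (h : den A z ≠ 0) : HasDerivAt (mob A) ((den A z ^ 2)⁻¹) z := by
  unfold den at h
  have h1 : HasDerivAt (fun z : ℂ => (A : Mat) 0 0 * z + (A : Mat) 0 1) ((A : Mat) 0 0) z := by
    simpa using ((hasDerivAt_id z).const_mul ((A : Mat) 0 0)).add_const ((A : Mat) 0 1)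
  have h2 : HasDerivAt (fun z : ℂ => (A : Mat) 1 0 * z + (A : Mat) 1 1) ((A : Mat) 1 0) z := by
    simpa using ((hasDerivAt_id z).const_mul ((A : Mat) 1 0)).add_const ((A : Mat) 1 1)
  have h3 := h1.div h2 h
  have hd := A.det_coe
  rw [Matrix.det_fin_two] at hd
  unfold den
  have h4 : ((A : Mat) 0 0 * ((A : Mat) 1 0 * z + (A : Mat) 1 1) - ((A : Mat) 0 0 * z + (A : Mat) 0 1) * (A : Mat) 1 0) /
      ((A : Mat) 1 0 * z + (A : Mat) 1 1) ^ 2 = (((A : Mat) 1 0 * z + (A : Mat) 1 1) ^ 2)⁻¹ := by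
    rw [div_eq_iff (pow_ne_zero 2 h), inv_mul_cancel₀ (pow_ne_zero 2 h)]
    linear_combination hd
  rw [h4] at h3
  exact h3

theorem su_bound {A : SL} (h : IsSU A) {z : ℂ} {r : ℝ} (hr : r < 1) (hz : ‖z‖ ≤ r) (hm : ‖mob A z‖ ≤ r) :
    hs (A : Mat) ≤ 8 / (1 - r) ^ 3 := by
  have hr0 : 0 ≤ r := (norm_nonneg z).trans hz
  have h1 := su_norm h (hz.trans hr.le)
  have hdet := su_det h
  rw [Complex.normSq_eq_norm_sq, Complex.normSq_eq_norm_sq] at hdet
  set a := (A : Mat) 0 0 with ha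
  set b := (A : Mat) 0 1 with hb
  have hhs : hs (A : Mat) = 2 * (‖a‖ ^ 2 + ‖b‖ ^ 2) := by
    unfold hs
    rw [Fin.sum_univ_two, Fin.sum_univ_two, Fin.sum_univ_two, h.1, h.2, RCLike.norm_conj, RCLike.norm_conj,
      ← ha, ← hb]
    ring
  have hab : ‖b‖ ≤ ‖a‖ := by
    by_contra hc
    push Not at hc
    nlinarith [norm_nonneg a, norm_nonneg b]
  have hden : (1 - r) * ‖a‖ ≤ ‖den A z‖ := by
    have h2 : den A z = conj b * z + conj a := by
      unfold den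
      rw [h.1, h.2]
    have h3 : ‖a‖ ≤ ‖den A z‖ + ‖b‖ * ‖z‖ := by
      have h4 : conj a = den A z - conj b * z := by rw [h2]; ring
      calc ‖a‖ = ‖conj a‖ := (RCLike.norm_conj a).symm
        _ = ‖den A z - conj b * z‖ := by rw [← h4]
        _ ≤ ‖den A z‖ + ‖conj b * z‖ := norm_sub_le _ _
        _ = ‖den A z‖ + ‖b‖ * ‖z‖ := by rw [norm_mul, RCLike.norm_conj]
    have h5 : ‖b‖ * ‖z‖ ≤ ‖a‖ * r := mul_le_mul hab hz (norm_nonneg z) (norm_nonneg a)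
    linarith
  have hr1 : 0 < 1 - r := by linarith
  have h6 : ((1 - r) * ‖a‖) ^ 2 ≤ ‖den A z‖ ^ 2 :=
    pow_le_pow_left₀ (mul_nonneg hr1.le (norm_nonneg a)) hden 2
  have h7 : 1 - r ≤ 1 - ‖mob A z‖ ^ 2 := by
    have h8 : ‖mob A z‖ ^ 2 ≤ r ^ 2 := pow_le_pow_left₀ (norm_nonneg _) hm 2
    nlinarith
  have h8 : (1 - r) * ((1 - r) * ‖a‖) ^ 2 ≤ 1 := by
    calc (1 - r) * ((1 - r) * ‖a‖) ^ 2 ≤ (1 - ‖mob A z‖ ^ 2) * ‖den A z‖ ^ 2 :=
          mul_le_mul h7 h6 (sq_nonneg _) (hr1.le.trans h7)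
      _ = 1 - ‖z‖ ^ 2 := h1
      _ ≤ 1 := by nlinarith [sq_nonneg ‖z‖]
  rw [hhs, le_div_iff₀ (pow_pos hr1 3)]
  have h9 : ‖b‖ ^ 2 ≤ ‖a‖ ^ 2 := pow_le_pow_left₀ (norm_nonneg b) hab 2
  have h10 : 0 < (1 - r) ^ 3 := pow_pos hr1 3
  nlinarith

theorem hSUB : StSUB := by
  refine ⟨fun A hA => ⟨su_inv hA, ?_, ?_, ?_, ?_⟩, fun A B => su_mul, fun a ha => su_tr ha, mobmul, mob_deriv,
    fun A z r hA hr hz hm => su_bound hA hr hz hm⟩
  · intro z hz
    exact su_ne hA (mem_closedBall_zero_iff.1 hz)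
  · exact su_bij hA ball_subset_closedBall (su_D hA) (su_D (su_inv hA))
  · exact su_bij hA sphere_subset_closedBall (su_S hA) (su_S (su_inv hA))
  · intro z hz
    exact inv_mob A z (su_ne hA (mem_closedBall_zero_iff.1 hz))

end Pool.Agent.Helper33.QD
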